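import Mathlib
import Pool.Agent.X155.SnowPer

/-!
# Minimisers of `M_λ` without closed representative

The definitions (`lipOn`, `asymSlope`, `TendstoL1Loc`, `totalVariation`, `variationOn`, `perimeter`,
`functionalM`, `IsMinimizerM`, `HasClosedRepresentative`) are in `Pool.Agent.X155.SnowPer`.
-/

set_option autoImplicit false

open MeasureTheory Set
open scoped ENNReal

namespace Pool.Agent.Results.MP_fa2b2f_an.SnowflakeM

open Pool.Agent.X155.SnowPer

/-- There are a complete separable metric space `X`, a Borel measure `m` on it, finite on bounded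
sets, with `m (B_r(x)) = 4 r⁴` for all `x` and `r ≥ 0`, and a bounded domain `Ω`, such that for every
`lam > 0` the set `Ω` is a minimiser of `M_lam` and no minimiser of `M_lam` has a closed
representative. -/
theorem result :
    ∃ (X : Type) (_ : MetricSpace X) (_ : CompleteSpace X)
      (_ : TopologicalSpace.SeparableSpace X) (_ : MeasurableSpace X) (_ : BorelSpace X)
      (m : Measure X),
      (∀ s : Set X, Bornology.IsBounded s → m s < ∞) ∧
      (∀ (x : X) (r : ℝ), 0 ≤ r → m (Metric.ball x r) = ENNReal.ofReal (4 * r ^ 4)) ∧
      ∃ Ω : Set X, IsOpen Ω ∧ IsConnected Ω ∧ Bornology.IsBounded Ω ∧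
        ∀ lam : ℝ, 0 < lam →
          IsMinimizerM m Ω lam Ω ∧
          ∀ E : Set X, IsMinimizerM m Ω lam E → ¬ HasClosedRepresentative m E := by
  obtain ⟨U, hU, hQ, hvol⟩ := exists_open_dense_small
  refine ⟨Snow, inferInstance, inferInstance, inferInstance, inferInstance, inferInstance, area,
    fun s hs => area_lt_top hs, fun x r hr => area_ball x hr, domS U, isOpen_domS hU,
    isConnected_domS U, isBounded_domS U, fun lam hlam => mainM hU hQ hvol hlam⟩

end Pool.Agent.Results.MP_fa2b2f_an.SnowflakeM
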